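import Pool.Agent.Helper45.L.Defs
import Pool.Agent.Helper45.HG.NF
import Pool.Agent.SC.Weights

/-!
# Project L, block FR: Frobenius elements over a number field
-/

set_option autoImplicit false
set_option linter.unusedSectionVars false

namespace Pool.Agent.L

open VC IntermediateField NumberField IsDedekindDomain Pool.Agent.SC Pool.Agent.Helper91.Sect
open Pool.Agent.HG (Pr nm IsOdd)

noncomputable section

section Loc

variable {k E : Type} [Field k] [NumberField k] [Field E] [IsAlgClosed E] [Algebra k E]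
  [IsGalois k E] [CharZero E] {v : Pr k} (Q : Ideal (integralClosure (Pool.Agent.HG.OV v) E))
  [hQ : Q.IsPrime]

/-- values of elements of `k` -/
theorem locW_le_iff (hA : Above Q) (x : k) :
    (locW Q).valuation (algebraMap k E x) ≤ 1 ↔ v.valuation k x ≤ 1 := by
  constructor
  · intro h
    by_contra hx
    rw [not_le] at hx
    have h1 : v.valuation k x⁻¹ < 1 := by
      rw [map_inv₀]
      exact inv_lt_one_of_one_lt₀ hx
    have h2 := locW_algebraMap_lt Q hA ((Pool.Agent.HG.OV_lt v _).2 h1)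
    rw [map_inv₀, map_inv₀] at h2
    have hx0 : x ≠ 0 := by
      rintro rfl
      rw [map_zero] at hx
      exact absurd hx (not_lt.2 zero_le)
    have h3 : (locW Q).valuation (algebraMap k E x) ≠ 0 := by simpa using hx0
    have h4 : 1 < (locW Q).valuation (algebraMap k E x) := by
      rwa [inv_lt_one₀ (zero_lt_iff.2 h3)] at h2
    exact absurd h (not_le.2 h4)
  · intro h
    exact locW_algebraMap_le (((Pool.Agent.HG.OV v).valuation_le_one_iff x).2 h)

theorem locW_lt_iff (hA : Above Q) (x y : k) (hy : y ≠ 0) :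
    (locW Q).valuation (algebraMap k E y) ≤ (locW Q).valuation (algebraMap k E x) ↔
      v.valuation k y ≤ v.valuation k x := by
  by_cases hx : x = 0
  · subst hx
    have h1 : v.valuation k y ≠ 0 := by simpa using hy
    have h2 : (locW Q).valuation (algebraMap k E y) ≠ 0 := by simpa using hy
    simp only [map_zero, le_zero_iff, h1, h2]
  · have h1 : v.valuation k x ≠ 0 := by simpa using hx
    have h2 : (locW Q).valuation (algebraMap k E x) ≠ 0 := by simpa using hx
    have h3 := locW_le_iff Q hA (y / x)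
    rw [map_div₀, map_div₀, map_div₀, div_le_one₀ (zero_lt_iff.2 h2),
      div_le_one₀ (zero_lt_iff.2 h1)] at h3
    exact h3

/-- The valuation of a number field has rank one. -/
theorem exists_pow_lt_val {x y : k} (hx : v.valuation k x < 1) (hy : y ≠ 0) :
    ∃ N : ℕ, v.valuation k (x ^ N) < v.valuation k y := by
  have h1 : v.valuation k y ≠ 0 := by simpa using hy
  by_cases hx0 : x = 0
  · refine ⟨1, ?_⟩
    rw [hx0, pow_one, map_zero]
    exact zero_lt_iff.2 h1
  have h2 : v.valuation k x ≠ 0 := by simpa using hx0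
  have hpos : 0 < v.valuation k x := zero_lt_iff.2 h2
  obtain ⟨N, hN⟩ := MulArchimedean.arch ((v.valuation k y)⁻¹)
    ((one_lt_inv₀ hpos).2 hx)
  refine ⟨N + 1, ?_⟩
  have h3 : (v.valuation k x) ^ N ≤ v.valuation k y := by
    rw [inv_pow] at hN
    exact (inv_le_inv₀ (zero_lt_iff.2 h1) (pow_pos hpos N)).1 hN
  rw [map_pow, pow_succ]
  refine lt_of_lt_of_le ?_ h3
  exact mul_lt_of_lt_one_right (pow_pos hpos N) hx

theorem rank_locW (hA : Above Q) {a c : E} (ha : (locW Q).valuation a < 1) (hc : c ≠ 0) :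
    ∃ N : ℕ, (locW Q).valuation (a ^ N) < (locW Q).valuation c := by
  have hc0 : (locW Q).valuation c ≠ 0 := by simpa using hc
  by_cases ha0 : a = 0
  · refine ⟨1, ?_⟩
    rw [ha0, pow_one, map_zero]
    exact zero_lt_iff.2 hc0
  by_cases hc1 : 1 ≤ (locW Q).valuation c
  · exact ⟨1, by rw [pow_one]; exact lt_of_lt_of_le ha hc1⟩
  rw [not_le] at hc1
  obtain ⟨α, hα, hval⟩ := exists_pow_val (locW Q).valuation ha0
    (Algebra.IsIntegral.isIntegral (R := k) a) le_rfl
  obtain ⟨β, hβ, hval2⟩ := exists_pow_val (locW Q).valuation hc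
    (Algebra.IsIntegral.isIntegral (R := k) c) le_rfl
  set M := (minpoly k a).natDegree.factorial
  set M' := (minpoly k c).natDegree.factorial
  have hM0 : M ≠ 0 := Nat.factorial_ne_zero _
  have hM'0 : M' ≠ 0 := Nat.factorial_ne_zero _
  have h1 : (locW Q).valuation (algebraMap k E α) < 1 := by
    rw [← hval, map_pow]
    exact pow_lt_one₀ zero_le ha hM0
  have h2 : v.valuation k α < 1 := by
    have h3 := locW_lt_iff Q hA α 1 one_ne_zero
    simp only [map_one] at h3
    rw [← not_le, ← h3, not_le]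
    exact h1
  obtain ⟨N, hN⟩ := exists_pow_lt_val h2 hβ
  refine ⟨M * N, ?_⟩
  have h4 : (locW Q).valuation (a ^ (M * N)) = (locW Q).valuation (algebraMap k E (α ^ N)) := by
    rw [pow_mul, map_pow, hval, ← map_pow, ← map_pow]
  rw [h4]
  have h5 : (locW Q).valuation (algebraMap k E (α ^ N)) < (locW Q).valuation (algebraMap k E β) := by
    rw [← not_le, locW_lt_iff Q hA _ _ hβ, not_le]
    exact hN
  refine lt_of_lt_of_le h5 ?_
  rw [← hval2, map_pow]
  exact pow_le_of_le_one zero_le hc1.le hM'0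

theorem inD_of_stab {γ : E ≃ₐ[k] E} (h : ∀ z, γ z ∈ locW Q ↔ z ∈ locW Q) : InD Q γ := by
  intro b
  have h1 : ∀ z : E, (locW Q).valuation z < 1 ↔ (z = 0 ∨ z⁻¹ ∉ locW Q) := fun z =>
    (locW Q).mem_nonunits_iff.symm.trans (locW Q).mem_nonunits_iff_or
  rw [← val_coe_lt_one_iff Q, ← val_coe_lt_one_iff Q, h1, h1, coe_smulB, ← map_inv₀, h]
  simp

theorem inI_of_inert {τ : E ≃ₐ[k] E} (h : Inert (locW Q) τ.toRingEquiv) : InI Q τ := by
  refine ⟨inD_of_stab Q h.stab, fun b => ?_⟩
  rw [← val_coe_lt_one_iff Q]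
  exact h.res _ (coe_mem_locW Q b)

theorem inert_of_inI {τ : E ≃ₐ[k] E} (h : InI Q τ) : Inert (locW Q) τ.toRingEquiv :=
  ⟨fun z => stab_locW Q h.1 z, fun _ hz => inertia_locW Q h.1 h.2 hz⟩

theorem unit_of_coprime {p : ℕ} (hp : (locW Q).valuation (p : E) < 1) {n : ℕ}
    (hn : n.Coprime p) : (locW Q).valuation (n : E) = 1 := by
  have h1 : IsCoprime (n : ℤ) (p : ℤ) := by
    rw [Nat.isCoprime_iff_coprime]
    exact hn
  obtain ⟨a, b, hab⟩ := h1
  have hle : ∀ m : ℤ, (locW Q).valuation (m : E) ≤ 1 := fun m =>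
    ((locW Q).valuation_le_one_iff _).2 (intCast_mem (locW Q) m)
  refine le_antisymm (by exact_mod_cast hle n) ?_
  by_contra hlt
  rw [not_le] at hlt
  have h2 : (1 : E) = (n : E) * (a : E) + (p : E) * (b : E) := by
    have h3 : ((a * n + b * p : ℤ) : E) = ((1 : ℤ) : E) := by rw [hab]
    push_cast at h3
    rw [← h3]
    ring
  have h4 : (locW Q).valuation (1 : E) < 1 := by
    rw [h2]
    refine Valuation.map_add_lt _ ?_ ?_
    · rw [map_mul]
      exact mul_lt_one_of_lt_of_le hlt (hle a)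
    · rw [map_mul]
      exact mul_lt_one_of_lt_of_le hp (hle b)
  rw [map_one] at h4
  exact lt_irrefl _ h4

end Loc

/-- **Block FR.** -/
theorem stmtFR : StmtFR := by
  intro k E _ _ _ _ _ _ v
  have hcz : CharZero E := charZero_of_injective_algebraMap (algebraMap k E).injective
  have hclo : IsAlgClosure k E := ⟨inferInstance, inferInstance⟩
  have hnor : Normal k E := IsAlgClosure.normal k E
  have hgal : IsGalois k E := ⟨⟩
  obtain ⟨p, hp, hpv⟩ := Pool.Agent.HG.exists_prime v
  have hpf : Fact p.Prime := ⟨hp⟩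
  obtain ⟨f, hf, hnm⟩ := Pool.Agent.HG.nm_pow v hp hpv
  have hpO : (Pool.Agent.HG.OV v).valuation (p : k) < 1 := by
    rw [Pool.Agent.HG.OV_lt]
    exact_mod_cast (Pool.Agent.HG.val_int_lt v (p : 𝓞 k)).2 hpv
  obtain ⟨Q, hQ, γ, hA, hγD, hγ⟩ := exists_frob (S := k) (C := E) (Pool.Agent.HG.OV v) p f hpO
    (fun z hz => by
      rw [Pool.Agent.HG.OV_lt, ← hnm]
      exact Pool.Agent.HG.pow_nm_sub' v hz)
  have hpQ : (locW Q).valuation (p : E) < 1 := by
    have h1 := locW_algebraMap_lt Q hA hpO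
    rwa [map_natCast] at h1
  refine ⟨locW Q, γ, p, f, ?_, hnm, ?_, ?_, ?_⟩
  · intro x
    rw [← (locW Q).valuation_le_one_iff]
    exact locW_le_iff Q hA x
  · refine ⟨hp, Nat.pos_of_ne_zero hf, fun a c ha hc => rank_locW Q hA ha hc, hpQ,
      fun z => stab_locW Q hγD z, ?_, ?_⟩
    · intro z hz
      exact (hγ z (((locW Q).valuation_le_one_iff z).2 hz)).2.2
    · intro z
      obtain ⟨m, hm, hmz⟩ := exists_autpow_fix γ (Algebra.IsAlgebraic.isAlgebraic (R := k) z)
      refine ⟨m, hm, ?_⟩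
      have h1 : ∀ (j : ℕ) (y : E), (γ.toRingEquiv^[j]) y = (γ ^ j) y := by
        intro j
        induction j with
        | zero => intro y; rfl
        | succ j ih =>
          intro y
          rw [Function.iterate_succ_apply', ih, pow_succ', AlgEquiv.mul_apply]
          rfl
      rw [h1]
      exact hmz
  · intro c hc
    obtain ⟨w, hw⟩ := IsAlgClosed.exists_pow_nat_eq (algebraMap k E c) two_pos
    have hodd : ∀ d : k, (Pool.Agent.HG.OV v).valuation c ≠
        (Pool.Agent.HG.OV v).valuation d ^ 2 := by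
      intro d hd
      apply hc d
      rw [← map_pow] at hd ⊢
      exact (Pool.Agent.HG.OV_equiv v).eq_iff.2 hd
    obtain ⟨τ, hτ, hτw⟩ := exists_inertia_neg Q hA hodd hw
    refine ⟨τ, inert_of_inI Q hτ, ?_⟩
    intro d hd
    rw [← hw] at hd
    rcases sq_eq_sq_iff_eq_or_eq_neg.1 hd with h | h
    · rw [h, hτw]
    · rw [h, map_neg, hτw]
  · intro g τ hg hτ L _ m hm
    have hgD := inD_of_stab Q hg
    have hτI := inI_of_inert Q hτ
    have hfd : FiniteDimensional k (normalClosure k L E) := inferInstance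
    have hnl : Normal k (normalClosure k L E) := inferInstance
    obtain ⟨a, j, h1, h2⟩ := tame_relation_wild Q (Or.inr hp)
      (fun n _ hn => unit_of_coprime Q hpQ hn) hgD hτI (normalClosure k L E) m hm
    exact ⟨a, j, h1, fun z hz => h2 z (IntermediateField.le_normalClosure L hz)⟩

end

end Pool.Agent.L
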