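import Pool.Agent.Helper79.L.FR

/-!
# Inertia elements which move a root of prime degree
-/

set_option autoImplicit false
set_option linter.unusedSectionVars false

universe u

namespace Pool.Agent.Helper91.Sect

open scoped Pointwise IntermediateField
open Polynomial

section Sum

variable {C Γ : Type*} [Field C] [LinearOrderedCommGroupWithZero Γ] (V : Valuation C Γ)

/-- a sum of elements with distinct values -/
theorem val_sum_distinct {ℓ : ℕ} (hℓ : 0 < ℓ) (a : ℕ → C)
    (h : ∀ i < ℓ, ∀ j < ℓ, i ≠ j → a i ≠ 0 → V (a i) ≠ V (a j)) :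
    ∃ j < ℓ, V (∑ i ∈ Finset.range ℓ, a i) = V (a j) ∧ ∀ i < ℓ, V (a i) ≤ V (a j) := by
  classical
  obtain ⟨j, hj, hjmax⟩ := Finset.exists_max_image (Finset.range ℓ) (fun i => V (a i))
    ⟨0, Finset.mem_range.2 hℓ⟩
  refine ⟨j, Finset.mem_range.1 hj, ?_, fun i hi => hjmax i (Finset.mem_range.2 hi)⟩
  by_cases hj0 : a j = 0
  · have h1 : ∀ i ∈ Finset.range ℓ, a i = 0 := by
      intro i hi
      have h2 := hjmax i hi
      rw [hj0, map_zero, le_zero_iff, Valuation.zero_iff] at h2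
      exact h2
    rw [Finset.sum_eq_zero h1, hj0]
  · refine Valuation.map_sum_eq_of_lt _ hj ?_
    intro i hi
    rw [Finset.mem_sdiff, Finset.mem_singleton] at hi
    exact lt_of_le_of_ne (hjmax i hi.1)
      (h j (Finset.mem_range.1 hj) i (Finset.mem_range.1 hi.1) (Ne.symm hi.2) hj0).symm

end Sum

section Root

variable {k C : Type u} [Field k] [Field C] [Algebra k C] [IsGalois k C]
  {O : ValuationSubring k} (Q : Ideal (integralClosure O C)) [hQ : Q.IsPrime]
  (hA : Above Q) {ℓ : ℕ} (hℓ : ℓ.Prime) {ζ : k} (hζ : IsPrimitiveRoot ζ ℓ) {c : k}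
  (hodd : ∀ d : k, O.valuation c ≠ O.valuation d ^ ℓ)
  {w : C} (hw : w ^ ℓ = algebraMap k C c)

include hA hℓ hodd hw in
theorem val_ne_root {i j : ℕ} (hij : i < j) (hjℓ : j < ℓ) {α β : k}
    (hα : α ≠ 0) (hβ : β ≠ 0) :
    (locW Q).valuation (algebraMap k C α * w ^ i) ≠
      (locW Q).valuation (algebraMap k C β * w ^ j) := by
  intro h
  have hc : c ≠ 0 := by
    rintro rfl
    exact hodd 0 (by rw [map_zero, zero_pow hℓ.ne_zero])
  have hw0 : w ≠ 0 := by
    rintro rfl
    apply hc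
    have : algebraMap k C c = 0 := by rw [← hw, zero_pow hℓ.ne_zero]
    simpa using this
  obtain ⟨d, rfl⟩ : ∃ d, j = i + d := ⟨j - i, by omega⟩
  have hd0 : 0 < d := by omega
  have hα' : algebraMap k C α ≠ 0 := by simpa using hα
  have hβ' : algebraMap k C β ≠ 0 := by simpa using hβ
  -- the value of `w ^ d`
  have h1 : (locW Q).valuation (w ^ d) = (locW Q).valuation (algebraMap k C (α / β)) := by
    have hwi : (locW Q).valuation (w ^ i) ≠ 0 := by simpa using fun h => absurd h hw0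
    have hvβ : (locW Q).valuation (algebraMap k C β) ≠ 0 := by simpa using hβ
    rw [pow_add, map_mul, map_mul, map_mul] at h
    rw [map_div₀, map_div₀, eq_div_iff hvβ]
    have h2 : (locW Q).valuation (w ^ i) * ((locW Q).valuation (w ^ d) *
        (locW Q).valuation (algebraMap k C β)) =
        (locW Q).valuation (w ^ i) * (locW Q).valuation (algebraMap k C α) := by
      rw [mul_comm ((locW Q).valuation (w ^ i)) ((locW Q).valuation (algebraMap k C α)), h]
      ac_rfl
    exact mul_left_cancel₀ hwi h2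
  have hdℓ : d < ℓ := by omega
  have hcop : Nat.Coprime d ℓ := ((Nat.Prime.coprime_iff_not_dvd hℓ).2 fun hd =>
    absurd (Nat.le_of_dvd hd0 hd) (not_le.2 hdℓ)).symm
  have hbez := Nat.gcd_eq_gcd_ab d ℓ
  rw [hcop] at hbez
  set m := d.gcdA ℓ
  set n := d.gcdB ℓ
  have hbez' : (1 : ℤ) = d * m + ℓ * n := by exact_mod_cast hbez
  have hαβ : α / β ≠ 0 := div_ne_zero hα hβ
  -- `c = (c ^ d) ^ m * (c ^ n) ^ ℓ`
  have h3 : (locW Q).valuation (algebraMap k C (c ^ d)) =
      (locW Q).valuation (algebraMap k C ((α / β) ^ ℓ)) := by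
    rw [map_pow (algebraMap k C), ← hw, ← pow_mul, mul_comm ℓ d, pow_mul, map_pow, h1, ← map_pow,
      ← map_pow]
  rw [locW_eq_iff Q hA (pow_ne_zero _ hαβ), map_pow, map_pow] at h3
  have hvc : O.valuation c ≠ 0 := by simpa using hc
  apply hodd ((α / β) ^ m * c ^ n)
  have h4 : O.valuation c = (O.valuation c ^ d) ^ m * (O.valuation c ^ n) ^ ℓ := by
    rw [← zpow_natCast (O.valuation c) d, ← zpow_mul, ← zpow_natCast (O.valuation c ^ n) ℓ,
      ← zpow_mul, ← zpow_add₀ hvc, mul_comm n, ← hbez', zpow_one]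
  conv_lhs => rw [h4, h3]
  rw [map_mul, map_zpow₀, map_zpow₀, mul_pow]
  congr 1
  rw [← zpow_natCast, ← zpow_natCast, ← zpow_mul, ← zpow_mul, mul_comm]

include hw in
omit hQ [IsGalois k C] in
theorem mem_adjoin_root (hℓ0 : ℓ ≠ 0) {x : C} (hx : x ∈ k⟮w⟯) :
    ∃ α : ℕ → k, x = ∑ i ∈ Finset.range ℓ, algebraMap k C (α i) * w ^ i := by
  have hmonic : (X ^ ℓ - Polynomial.C c : k[X]).Monic := monic_X_pow_sub_C c hℓ0
  have hint : IsIntegral k w := ⟨X ^ ℓ - Polynomial.C c, hmonic, by simp [hw]⟩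
  have h1 : x ∈ Algebra.adjoin k {w} := by
    rw [← IntermediateField.adjoin_simple_toSubalgebra_of_isAlgebraic hint.isAlgebraic]
    exact hx
  rw [Algebra.adjoin_singleton_eq_range_aeval] at h1
  obtain ⟨p, rfl⟩ := h1
  have h2 := modByMonic_add_div p (X ^ ℓ - Polynomial.C c : k[X])
  have h3 : (p %ₘ (X ^ ℓ - Polynomial.C c)).degree < ℓ := by
    have := degree_modByMonic_lt p hmonic
    rwa [degree_X_pow_sub_C (Nat.pos_of_ne_zero hℓ0)] at this
  refine ⟨fun i => (p %ₘ (X ^ ℓ - Polynomial.C c)).coeff i, ?_⟩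
  have h6 : (aeval w : k[X] →ₐ[k] C) p = aeval w (p %ₘ (X ^ ℓ - Polynomial.C c)) := by
    conv_lhs => rw [← h2]
    simp [hw]
  change (aeval w : k[X] →ₐ[k] C) p = _
  rw [h6]
  have h7 : (p %ₘ (X ^ ℓ - Polynomial.C c)).natDegree < ℓ := by
    by_cases h0 : (p %ₘ (X ^ ℓ - Polynomial.C c)) = 0
    · rw [h0, natDegree_zero]; exact Nat.pos_of_ne_zero hℓ0
    · exact (natDegree_lt_iff_degree_lt h0).2 h3
  rw [aeval_eq_sum_range' h7]
  exact Finset.sum_congr rfl fun i _ => by rw [Algebra.smul_def]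

include hA hℓ hζ hodd hw in
/-- **An element of the inertia group moving a root of prime degree of an element whose value is
not a power.** -/
theorem exists_inertia_root : ∃ τ : C ≃ₐ[k] C, InI Q τ ∧ τ w = algebraMap k C ζ * w := by
  classical
  have hc : c ≠ 0 := by
    rintro rfl
    exact hodd 0 (by rw [map_zero, zero_pow hℓ.ne_zero])
  have hw0 : w ≠ 0 := by
    rintro rfl
    apply hc
    have : algebraMap k C c = 0 := by rw [← hw, zero_pow hℓ.ne_zero]
    simpa using this
  have hζC : IsPrimitiveRoot (algebraMap k C ζ) ℓ := hζ.map_of_injective (algebraMap k C).injective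
  -- an automorphism moving `w`
  obtain ⟨τ0, hτ0⟩ : ∃ τ0 : C ≃ₐ[k] C, τ0 w = algebraMap k C ζ * w := by
    obtain ⟨τ, hτ⟩ : ∃ τ : C ≃ₐ[k] C, τ w ≠ w := by
      by_contra hcon
      push Not at hcon
      have h2 := (InfiniteGalois.mem_range_algebraMap_iff_fixed (k := k) w).2 hcon
      obtain ⟨d, hd⟩ := h2
      apply hodd d
      have h3 : algebraMap k C c = algebraMap k C (d ^ ℓ) := by rw [map_pow, hd, hw]
      rw [(algebraMap k C).injective h3, map_pow]
    have hr : (τ w / w) ^ ℓ = 1 := by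
      rw [div_pow, ← map_pow, hw, AlgEquiv.commutes, div_self]
      simpa using hc
    have : NeZero ℓ := ⟨hℓ.ne_zero⟩
    obtain ⟨i, hi, hi2⟩ := hζC.eq_pow_of_pow_eq_one hr
    have hτw : τ w = algebraMap k C (ζ ^ i) * w := by
      rw [map_pow, hi2, div_mul_cancel₀ _ hw0]
    have hi0 : 0 < i := by
      rcases Nat.eq_zero_or_pos i with h | h
      · exfalso
        apply hτ
        rw [hτw, h, pow_zero, map_one, one_mul]
      · exact h
    have hcop : Nat.Coprime i ℓ := ((Nat.Prime.coprime_iff_not_dvd hℓ).2 fun hd =>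
      absurd (Nat.le_of_dvd hi0 hd) (not_le.2 hi)).symm
    obtain ⟨a, ha⟩ := Nat.exists_mul_mod_eq_one_of_coprime hcop hℓ.one_lt
    have h2 : ∀ j : ℕ, (τ ^ j) w = algebraMap k C ((ζ ^ i) ^ j) * w := by
      intro j
      induction j with
      | zero => rw [pow_zero, pow_zero, map_one, one_mul]; rfl
      | succ j ih =>
        rw [pow_succ', AlgEquiv.mul_apply, ih, map_mul, AlgEquiv.commutes, hτw, pow_succ (ζ ^ i),
          map_mul]
        ring
    refine ⟨τ ^ a, ?_⟩
    rw [h2, ← pow_mul]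
    congr 2
    conv_rhs => rw [← pow_one ζ]
    rw [← Nat.div_add_mod (i * a) ℓ, ha.2, pow_add, pow_mul, hζ.pow_eq_one, one_pow, one_mul]
  set H : Subgroup (C ≃ₐ[k] C) := (k⟮w⟯).fixingSubgroup with hHdef
  have hH : IsClosed (H : Set (C ≃ₐ[k] C)) := InfiniteGalois.fixingSubgroup_isClosed _
  have hHw : ∀ σ ∈ H, σ w = w := fun σ hσ => by
    exact (mem_fixingSubgroup_iff (C ≃ₐ[k] C)).1 hσ w (IntermediateField.mem_adjoin_simple_self k w)
  have hfixed : ∀ b : integralClosure O C, (∀ σ ∈ H, σ • b = b) →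
      ∃ α : ℕ → k, (b : C) = ∑ i ∈ Finset.range ℓ, algebraMap k C (α i) * w ^ i := by
    intro b hb
    apply mem_adjoin_root hw hℓ.ne_zero
    rw [← InfiniteGalois.fixedField_fixingSubgroup (k⟮w⟯), IntermediateField.mem_fixedField_iff]
    intro σ hσ
    exact congrArg Subtype.val (hb σ hσ)
  -- values of sums
  have hval : ∀ (α : ℕ → k), ∃ j < ℓ,
      (locW Q).valuation (∑ i ∈ Finset.range ℓ, algebraMap k C (α i) * w ^ i) =
        (locW Q).valuation (algebraMap k C (α j) * w ^ j) ∧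
      ∀ i < ℓ, (locW Q).valuation (algebraMap k C (α i) * w ^ i) ≤
        (locW Q).valuation (algebraMap k C (α j) * w ^ j) := by
    intro α
    refine val_sum_distinct (locW Q).valuation hℓ.pos (fun i => algebraMap k C (α i) * w ^ i) ?_
    intro i hi j hj hij hne heq
    have hαi : α i ≠ 0 := by
      intro h
      apply hne
      rw [h, map_zero, zero_mul]
    have hαj : α j ≠ 0 := by
      intro h
      have h1 : (locW Q).valuation (algebraMap k C (α j) * w ^ j) = 0 := by
        rw [h, map_zero, zero_mul, map_zero]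
      have h2 : (locW Q).valuation (algebraMap k C (α i) * w ^ i) = 0 := heq.trans h1
      exact hne ((Valuation.zero_iff _).1 h2)
    rcases lt_or_gt_of_ne hij with h | h
    · exact val_ne_root Q hA hℓ hodd hw h hj hαi hαj heq
    · exact val_ne_root Q hA hℓ hodd hw h hi hαj hαi heq.symm
  have hvlt : ∀ (α : ℕ → k),
      (locW Q).valuation (∑ i ∈ Finset.range ℓ, algebraMap k C (α i) * w ^ i) < 1 ↔
        ∀ i < ℓ, (locW Q).valuation (algebraMap k C (α i) * w ^ i) < 1 := by
    intro α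
    obtain ⟨j, hj, h1, h2⟩ := hval α
    rw [h1]
    exact ⟨fun h i hi => (h2 i hi).trans_lt h, fun h => h j hj⟩
  have hvζ : ∀ i : ℕ, (locW Q).valuation (algebraMap k C ζ ^ i) = 1 := by
    intro i
    have h1 : (locW Q).valuation (algebraMap k C ζ) = 1 := by
      have : (locW Q).valuation (algebraMap k C ζ) ^ ℓ = 1 := by
        rw [← map_pow, ← map_pow, hζ.pow_eq_one, map_one, map_one]
      exact (pow_eq_one_iff_of_nonneg zero_le hℓ.ne_zero).1 this
    rw [map_pow, h1, one_pow]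
  have hτ0b : ∀ (τ : C ≃ₐ[k] C), τ w = algebraMap k C ζ * w → ∀ α : ℕ → k,
      τ (∑ i ∈ Finset.range ℓ, algebraMap k C (α i) * w ^ i) =
      ∑ i ∈ Finset.range ℓ, algebraMap k C (α i * ζ ^ i) * w ^ i := by
    intro τ hτ α
    rw [map_sum]
    refine Finset.sum_congr rfl fun i _ => ?_
    rw [map_mul, AlgEquiv.commutes, map_pow, hτ, mul_pow, map_mul, map_pow]
    ring
  have hvmul : ∀ (α : ℕ → k) (i : ℕ), (locW Q).valuation (algebraMap k C (α i * ζ ^ i) * w ^ i) =
      (locW Q).valuation (algebraMap k C (α i) * w ^ i) := by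
    intro α i
    rw [map_mul (algebraMap k C), map_pow (algebraMap k C), map_mul, map_mul, hvζ, mul_one, map_mul]
  -- first step
  let P : Ideal (integralClosure O C) :=
    Q.comap (MulSemiringAction.toRingHom (C ≃ₐ[k] C) (integralClosure O C) τ0)
  have hP : ∀ b, b ∈ P ↔ τ0 • b ∈ Q := fun b => Iff.rfl
  have hPprime : P.IsPrime := Ideal.comap_isPrime _ _
  obtain ⟨δ, hδH, hδ⟩ := exists_conj H hH P Q (by
    intro b hb
    obtain ⟨α, hα⟩ := hfixed b hb
    rw [hP, ← val_coe_lt_one_iff Q, ← val_coe_lt_one_iff Q, coe_smulB, hα, hτ0b τ0 hτ0,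
      hvlt, hvlt]
    simp only [hvmul])
  set τ1 : C ≃ₐ[k] C := τ0 * δ⁻¹ with hτ1
  have hτ1D : InD Q τ1 := by
    intro b
    have h1 := hδ (δ⁻¹ • b)
    rw [smul_inv_smul, hP, ← mul_smul] at h1
    exact h1.symm
  have hτ1w : τ1 w = algebraMap k C ζ * w := by
    have : δ⁻¹ w = w := hHw _ (H.inv_mem hδH)
    rw [hτ1, AlgEquiv.mul_apply, this, hτ0]
  -- the automorphism of the residue ring
  let e : integralClosure O C ≃+* integralClosure O C :=
    MulSemiringAction.toRingEquiv (C ≃ₐ[k] C) (integralClosure O C) τ1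
  let φ : (integralClosure O C ⧸ Q) ≃+* (integralClosure O C ⧸ Q) :=
    Ideal.quotientEquiv Q Q e (by
      ext b
      rw [Ideal.map_comap_of_equiv]
      change b ∈ Q ↔ τ1⁻¹ • b ∈ Q
      rw [hτ1D.inv b])
  have hφ : ∀ b, φ (Ideal.Quotient.mk Q b) = Ideal.Quotient.mk Q (τ1 • b) := fun b => rfl
  obtain ⟨ε, hεH, hεD, hε⟩ := exists_lift H hH Q φ (by
    intro b hb
    obtain ⟨α, hα⟩ := hfixed b hb
    rw [hφ, Ideal.Quotient.eq, ← val_coe_lt_one_iff Q]
    have h1 : ((τ1 • b - b : integralClosure O C) : C) =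
        ∑ i ∈ Finset.range ℓ, (algebraMap k C (α i) * w ^ i) * (algebraMap k C ζ ^ i - 1) := by
      push_cast
      rw [coe_smulB, hα, hτ0b τ1 hτ1w, ← Finset.sum_sub_distrib]
      refine Finset.sum_congr rfl fun i _ => ?_
      rw [map_mul, map_pow]
      ring
    rw [h1]
    refine Valuation.map_sum_lt _ one_ne_zero fun i hi => ?_
    have hiℓ := Finset.mem_range.1 hi
    rcases Nat.eq_zero_or_pos i with h0 | hi0
    · rw [h0, pow_zero (algebraMap k C ζ), sub_self, mul_zero, map_zero]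
      exact zero_lt_one
    have h2 : (locW Q).valuation (algebraMap k C (α i) * w ^ i) ≤ 1 := by
      have h3 := coeB_le Q b
      obtain ⟨j, hj, h4, h5⟩ := hval α
      rw [hα, h4] at h3
      exact (h5 i hiℓ).trans h3
    have h3 : (locW Q).valuation (algebraMap k C (α i) * w ^ i) ≠ 1 := by
      by_cases hα0 : α i = 0
      · rw [hα0, map_zero, zero_mul, map_zero]
        exact zero_ne_one
      · have h6 := val_ne_root Q hA hℓ hodd hw hi0 hiℓ one_ne_zero hα0
        rw [map_one, pow_zero, mul_one, map_one] at h6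
        exact h6.symm
    have h4 : (locW Q).valuation (algebraMap k C ζ ^ i - 1) ≤ 1 := by
      refine (Valuation.map_sub _ _ _).trans ?_
      rw [hvζ, map_one, max_self]
    rw [map_mul]
    exact mul_lt_one_of_lt_of_le (lt_of_le_of_ne h2 h3) h4)
  refine ⟨ε⁻¹ * τ1, ⟨(InD.inv hεD).mul hτ1D, fun b => ?_⟩, ?_⟩
  · rw [← hεD, smul_sub, ← mul_smul, mul_inv_cancel_left, ← Ideal.Quotient.eq, hε b, hφ]
  · rw [AlgEquiv.mul_apply, hτ1w, map_mul, AlgEquiv.commutes, hHw _ (H.inv_mem hεH)]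

end Root

end Pool.Agent.Helper91.Sect
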